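import Pool.Agent.H533W.Final

/-!
# The word problem is undecidable in every variety containing `W_K`

All definitions are in `Pool/Agent/H533W/Defs.lean`: `Fr K X` is the free associative algebra
without unit, `ContainsW E` says that the variety defined by the identities `E` contains `W_K`,
`InIdeal E R` is the ideal generated by the relators `R` and the values of the identities `E`
(the kernel of the map from the free algebra onto the algebra presented in the variety by `R`),
`Constructive K` are the codings of `K` that make it a constructive field, and
`WordProblemDecidable C E` says that every algebra finitely presented in the variety has a
decidable word problem.
-/

set_option autoImplicit false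

namespace Pool.Agent.Results.MP_f5ceca_al.UndecidableAboveW

open Pool.Agent.H533W

/-- There are a recursively enumerable non-computable set `S` of natural numbers, a finite list
of integral relators in `m` generators and a computable sequence `u 0, u 1, …` of words in these
generators such that, for every field `K` of characteristic zero and every variety of associative
`K`-algebras that contains `W_K`, the word `u n` is zero in the algebra presented in the variety
by these relators if and only if `n ∈ S`. In particular, for every constructive field `K` of
characteristic zero, the word problem is undecidable in every variety of associative
`K`-algebras that contains `W_K`. -/
theorem result :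
    ∃ (S : ℕ → Prop) (m : ℕ) (rels : List (NC ℤ (Fin m))) (u : ℕ → Wd (Fin m)),
      REPred S ∧ ¬ ComputablePred S ∧ Computable u ∧
      ∀ (K : Type) [Field K] [CharZero K] (E : Set (Fr K ℕ)), ContainsW E →
        (∀ n, InIdeal E {g | ∃ r ∈ rels, g = toFr (fun z : ℤ => (z : K)) r} (mon K (u n)) ↔ S n) ∧
        ∀ C : Constructive K, ¬ WordProblemDecidable C E :=
  main

end Pool.Agent.Results.MP_f5ceca_al.UndecidableAboveW
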